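import Pool.Agent.H820.F3.Stm

set_option autoImplicit false

/-! Project F3 (helper820): GAUGE, the normal form of a real cocycle on a product of three factors.
`u z = ∑ Ψ_γ(z) (b₀^{γ₀}(z) + b₁^{γ₁}(γ₀ z) + b₂^{γ₂}(γ₁ γ₀ z))`, `Ψ_γ(z) = ∏ ψ i (γ i) (z i)`. -/

namespace Pool.Agent.H263.F3

open Filter Topology
open scoped ContDiff
open Pool.Agent.H820.T6 (Z3)
open Pool.Agent.H820.F3

noncomputable section

variable (C : Fin 3 → Cur)

section act
variable {C}

theorem actm_mem (hC : ∀ i, IsCur (C i)) (g : Gp C) {z : Z3} (hz : z ∈ Dm C) : actm C g z ∈ Dm C :=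
  fun i => (hC i).maps (g i) (z i) (hz i)

theorem actm_mul (hC : ∀ i, IsCur (C i)) (g h : Gp C) {z : Z3} (hz : z ∈ Dm C) :
    actm C (g * h) z = actm C g (actm C h z) := by
  funext i
  exact (hC i).mul (g i) (h i) (z i) (hz i)

theorem actm_smooth (hC : ∀ i, IsCur (C i)) (g : Gp C) : ContDiffOn ℝ ∞ (actm C g) (Dm C) := by
  rw [contDiffOn_pi]
  intro i
  have h1 : ContDiffOn ℝ ∞ ((C i).act (g i)) (C i).D := ((hC i).holo (g i)).restrict_scalars ℝ
  exact h1.comp (contDiff_apply ℝ ℂ i).contDiffOn (fun w hw => hw i)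

theorem sg_mul (i : Fin 3) (g h : (C i).G) : sg C i (g * h) = sg C i g * sg C i h :=
  Pi.mulSingle_mul (f := fun i => (C i).G) i g h

theorem sg_comm {i j : Fin 3} (hij : i ≠ j) (g : (C i).G) (h : (C j).G) :
    sg C i g * sg C j h = sg C j h * sg C i g :=
  (Pi.mulSingle_commute (f := fun i => (C i).G) hij g h).eq

theorem sg_same (i : Fin 3) (g : (C i).G) : sg C i g i = g :=
  Pi.mulSingle_eq_same (M := fun i => (C i).G) i g

theorem sg_ne {i j : Fin 3} (hij : j ≠ i) (g : (C i).G) : sg C i g j = 1 :=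
  Pi.mulSingle_eq_of_ne (M := fun i => (C i).G) hij g

theorem actm_comm (hC : ∀ i, IsCur (C i)) {i j : Fin 3} (hij : i ≠ j) (g : (C i).G) (h : (C j).G)
    {z : Z3} (hz : z ∈ Dm C) :
    actm C (sg C i g) (actm C (sg C j h) z) = actm C (sg C j h) (actm C (sg C i g) z) := by
  rw [← actm_mul hC _ _ hz, sg_comm hij, actm_mul hC _ _ hz]

theorem actm_sg_mul (hC : ∀ i, IsCur (C i)) (i : Fin 3) (g h : (C i).G) {z : Z3} (hz : z ∈ Dm C) :
    actm C (sg C i (g * h)) z = actm C (sg C i g) (actm C (sg C i h) z) := by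
  rw [sg_mul, actm_mul hC _ _ hz]

end act

/-- the product partition of unity -/
def Ps (ψ : ∀ i, (C i).G → ℂ → ℝ) (γ : Gp C) (z : Z3) : ℝ := ∏ i, ψ i (γ i) (z i)

section part
variable {C} {ψ : ∀ i, (C i).G → ℂ → ℝ}

theorem locfin (hψ : ∀ i, Part (C i) (ψ i)) {z : Z3} (hz : z ∈ Dm C) :
    ∃ N ∈ 𝓝 z, ∃ S : ∀ i, Finset (C i).G, ∀ w ∈ N, ∀ i, ∀ g ∉ S i, ψ i g (w i) = 0 := by
  choose N hN S hS using fun i => (hψ i).locfin (z i) (hz i)
  refine ⟨Set.pi Set.univ N, set_pi_mem_nhds Set.finite_univ (fun i _ => hN i), S, ?_⟩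
  intro w hw i g hg
  exact hS i (w i) (hw i (Set.mem_univ i)) g hg

open scoped Classical in
theorem Ps_zero {S : ∀ i, Finset (C i).G} {w : Z3} (hw : ∀ i, ∀ g ∉ S i, ψ i g (w i) = 0)
    {γ : Gp C} (hγ : γ ∉ Fintype.piFinset S) : Ps C ψ γ w = 0 := by
  rw [Fintype.mem_piFinset] at hγ
  push Not at hγ
  obtain ⟨i, hi⟩ := hγ
  exact Finset.prod_eq_zero (Finset.mem_univ i) (hw i (γ i) hi)

theorem summable_Ps (hψ : ∀ i, Part (C i) (ψ i)) {z : Z3} (hz : z ∈ Dm C) (F : Gp C → ℝ) :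
    Summable (fun γ => Ps C ψ γ z * F γ) := by
  classical
  obtain ⟨N, hN, S, hS⟩ := locfin hψ hz
  refine summable_of_ne_finset_zero (s := Fintype.piFinset S) fun γ hγ => ?_
  rw [Ps_zero (hS z (mem_of_mem_nhds hN)) hγ, zero_mul]

theorem marg (hψ : ∀ i, Part (C i) (ψ i)) {z : Z3} (hz : z ∈ Dm C) (i : Fin 3) (f : (C i).G → ℝ) :
    ∑' γ : Gp C, Ps C ψ γ z * f (γ i) = ∑' g, ψ i g (z i) * f g := by
  classical
  obtain ⟨N, hN, S, hS⟩ := locfin hψ hz
  have hS := hS z (mem_of_mem_nhds hN)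
  rw [tsum_eq_sum (s := Fintype.piFinset S) (fun γ hγ => by rw [Ps_zero hS hγ, zero_mul]),
    tsum_eq_sum (s := S i) (fun g hg => by rw [hS i g hg, zero_mul])]
  let F : ∀ k, (C k).G → ℝ := fun k g => ψ k g (z k) * (if h : k = i then f (h ▸ g) else 1)
  have h1 := Finset.prod_univ_sum S F
  have h2 : ∏ k, ∑ g ∈ S k, F k g = ∑ g ∈ S i, ψ i g (z i) * f g := by
    rw [Finset.prod_eq_single i]
    · refine Finset.sum_congr rfl fun g _ => ?_
      simp only [F, dif_pos]
    · intro k _ hk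
      have h3 : ∀ g ∈ S k, F k g = ψ k g (z k) := by
        intro g _
        simp only [F, dif_neg hk, mul_one]
      rw [Finset.sum_congr rfl h3, ← (hψ k).sum_one (z k) (hz k)]
      exact (tsum_eq_sum fun g hg => hS k g hg).symm
    · intro h
      exact absurd (Finset.mem_univ i) h
  rw [← h2, h1]
  refine Finset.sum_congr rfl fun γ _ => ?_
  have h5 : ∏ k : Fin 3, (if h : k = i then f (h ▸ γ k) else 1) = f (γ i) := by
    rw [Finset.prod_eq_single i]
    · rw [dif_pos rfl]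
    · intro k _ hk
      rw [dif_neg hk]
    · intro h
      exact absurd (Finset.mem_univ i) h
  simp only [F, Finset.prod_mul_distrib]
  rw [h5]
  rfl

theorem sum_Ps (hψ : ∀ i, Part (C i) (ψ i)) {z : Z3} (hz : z ∈ Dm C) (a : ℝ) :
    ∑' γ : Gp C, Ps C ψ γ z * a = a := by
  have h1 := marg hψ hz 0 (fun _ => a)
  rw [h1, tsum_mul_right, (hψ 0).sum_one (z 0) (hz 0), one_mul]

theorem Ps_act (hψ : ∀ i, Part (C i) (ψ i)) {z : Z3} (hz : z ∈ Dm C) (γ h : Gp C) :
    Ps C ψ γ (actm C h z) = Ps C ψ (γ * h) z := by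
  unfold Ps
  refine Finset.prod_congr rfl fun i _ => ?_
  exact (hψ i).equi (γ i) (h i) (z i) (hz i)

theorem Ps_smooth (hψ : ∀ i, Part (C i) (ψ i)) (γ : Gp C) : ContDiffOn ℝ ∞ (Ps C ψ γ) (Dm C) := by
  unfold Ps
  refine contDiffOn_prod fun i _ => ?_
  exact ((hψ i).smooth (γ i)).comp (contDiff_apply ℝ ℂ i).contDiffOn (fun w hw => hw i)

theorem sum_smooth (hψ : ∀ i, Part (C i) (ψ i)) (F : Gp C → Z3 → ℝ)
    (hF : ∀ γ, ContDiffOn ℝ ∞ (F γ) (Dm C)) :
    ContDiffOn ℝ ∞ (fun z => ∑' γ : Gp C, Ps C ψ γ z * F γ z) (Dm C) := by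
  classical
  intro z hz
  obtain ⟨N, hN, S, hS⟩ := locfin hψ hz
  have h1 : ContDiffWithinAt ℝ ∞ (fun w => ∑ γ ∈ Fintype.piFinset S, Ps C ψ γ w * F γ w) (Dm C) z :=
    ContDiffWithinAt.sum fun γ _ => (Ps_smooth hψ γ z hz).mul (hF γ z hz)
  refine h1.congr_of_eventuallyEq_of_mem ?_ hz
  filter_upwards [mem_nhdsWithin_of_mem_nhds hN] with w hw
  exact tsum_eq_sum fun γ hγ => by rw [Ps_zero (hS w hw) hγ, zero_mul]

theorem sum_smooth1 {C : Cur} {ψ : C.G → ℂ → ℝ} (hψ : Part C ψ) (f : C.G → ℝ) :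
    ContDiffOn ℝ ∞ (fun z => ∑' g, ψ g z * f g) C.D := by
  classical
  intro z hz
  obtain ⟨N, hN, S, hS⟩ := hψ.locfin z hz
  have h1 : ContDiffWithinAt ℝ ∞ (fun w => ∑ g ∈ S, ψ g w * f g) C.D z :=
    ContDiffWithinAt.sum fun g _ => (hψ.smooth g z hz).mul contDiffWithinAt_const
  refine h1.congr_of_eventuallyEq_of_mem ?_ hz
  filter_upwards [mem_nhdsWithin_of_mem_nhds hN] with w hw
  exact tsum_eq_sum fun g hg => by rw [hS w hw g hg, zero_mul]

end part

theorem summable1 {C : Cur} {ψ : C.G → ℂ → ℝ} (hψ : Part C ψ) {z : ℂ} (hz : z ∈ C.D)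
    (f : C.G → ℝ) : Summable (fun g => ψ g z * f g) := by
  obtain ⟨N, hN, S, hS⟩ := hψ.locfin z hz
  refine summable_of_ne_finset_zero (s := S) fun g hg => ?_
  rw [hS z (mem_of_mem_nhds hN) g hg, zero_mul]

/-- the lifts along a path -/
def bp (b : Gp C → Z3 → ℝ) (γ : Gp C) (z : Z3) : ℝ :=
  b (sg C 0 (γ 0)) z + b (sg C 1 (γ 1)) (actm C (sg C 0 (γ 0)) z) +
    b (sg C 2 (γ 2)) (actm C (sg C 1 (γ 1)) (actm C (sg C 0 (γ 0)) z))

section main
variable {C} {b : Gp C → Z3 → ℝ}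

theorem R1 (hb : Coc C Set.univ b) (i : Fin 3) (g h : (C i).G) : ∃ c : ℝ, ∀ z ∈ Dm C,
    b (sg C i (g * h)) z = b (sg C i h) z + b (sg C i g) (actm C (sg C i h) z) + c := by
  obtain ⟨v, _, hv⟩ := hb.coc (sg C i g) (sg C i h)
  refine ⟨v, fun z hz => ?_⟩
  rw [sg_mul]
  exact hv z hz

theorem R2 (hb : Coc C Set.univ b) (i j : Fin 3) (g : (C i).G) (h : (C j).G) :
    ∃ m : ℝ, i ≠ j → ∀ z ∈ Dm C, cm C b i j g h z = m := by
  by_cases hij : i ≠ j
  · obtain ⟨v, _, hv⟩ := hb.coc (sg C i g) (sg C j h)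
    obtain ⟨v', _, hv'⟩ := hb.coc (sg C j h) (sg C i g)
    refine ⟨v' - v, fun _ z hz => ?_⟩
    have h1 := hv z hz
    have h2 := hv' z hz
    rw [sg_comm hij] at h1
    unfold cm
    linarith
  · exact ⟨0, fun h => absurd h hij⟩

theorem bp_smooth (hC : ∀ i, IsCur (C i)) (hb : Coc C Set.univ b) (γ : Gp C) :
    ContDiffOn ℝ ∞ (bp C b γ) (Dm C) := by
  unfold bp
  have h0 := actm_smooth hC (sg C 0 (γ 0))
  have h1 := actm_smooth hC (sg C 1 (γ 1))
  have m0 : Set.MapsTo (actm C (sg C 0 (γ 0))) (Dm C) (Dm C) := fun z hz => actm_mem hC _ hz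
  have m1 : Set.MapsTo (actm C (sg C 1 (γ 1))) (Dm C) (Dm C) := fun z hz => actm_mem hC _ hz
  exact ((hb.smooth _).add ((hb.smooth _).comp h0 m0)).add
    ((hb.smooth _).comp (h1.comp h0 m0) (m1.comp m0))

theorem mul_same (i : Fin 3) (γ : Gp C) (h : (C i).G) : (γ * sg C i h) i = γ i * h := by
  rw [Pi.mul_apply, sg_same]

theorem mul_ne {i j : Fin 3} (hij : j ≠ i) (γ : Gp C) (h : (C i).G) : (γ * sg C i h) j = γ j := by
  rw [Pi.mul_apply, sg_ne hij, mul_one]

variable (hC : ∀ i, IsCur (C i)) (c : ∀ i, (C i).G → (C i).G → ℝ)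
  (hc : ∀ i g h, ∀ z ∈ Dm C,
    b (sg C i (g * h)) z = b (sg C i h) z + b (sg C i g) (actm C (sg C i h) z) + c i g h)
  (m : ∀ i j, (C i).G → (C j).G → ℝ)
  (hm : ∀ i j g h, i ≠ j → ∀ z ∈ Dm C, cm C b i j g h z = m i j g h)

include hC hc hm in
theorem bp_mul (j : Fin 3) (h : (C j).G) (γ : Gp C) {z : Z3} (hz : z ∈ Dm C) :
    bp C b (γ * sg C j h) z = b (sg C j h) z + bp C b γ (actm C (sg C j h) z) + c j (γ j) h -
      ∑ i, if i < j then m i j (γ i) h else 0 := by
  have z0 := actm_mem hC (sg C 0 (γ 0)) hz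
  have z1 := actm_mem hC (sg C 1 (γ 1)) z0
  match j, h with
  | 0, h =>
    have h1 := hc 0 (γ 0) h z hz
    rw [Fin.sum_univ_three, if_neg (by decide), if_neg (by decide), if_neg (by decide)]
    unfold bp
    rw [mul_same, mul_ne (by decide), mul_ne (by decide), actm_sg_mul hC _ _ _ hz, h1]
    ring
  | 1, h =>
    have h1 := hc 1 (γ 1) h _ z0
    have h2 := hm 0 1 (γ 0) h (by decide) z hz
    rw [Fin.sum_univ_three, if_pos (by decide), if_neg (by decide), if_neg (by decide)]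
    unfold bp
    unfold cm at h2
    rw [mul_same, mul_ne (by decide), mul_ne (by decide), actm_sg_mul hC _ _ _ z0, h1,
      ← actm_comm hC (by decide) (γ 0) h hz]
    linear_combination -h2
  | 2, h =>
    have h1 := hc 2 (γ 2) h _ z1
    have h2 := hm 0 2 (γ 0) h (by decide) z hz
    have h3 := hm 1 2 (γ 1) h (by decide) _ z0
    rw [Fin.sum_univ_three, if_pos (by decide), if_pos (by decide), if_neg (by decide)]
    unfold bp
    unfold cm at h2 h3
    rw [← actm_comm hC (by decide) (γ 0) h hz] at h3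
    rw [mul_same, mul_ne (by decide), mul_ne (by decide), h1,
      ← actm_comm hC (by decide) (γ 1) h z0, ← actm_comm hC (by decide) (γ 0) h hz]
    linear_combination -h2 - h3

include hC hc hm in
theorem m_add {i j : Fin 3} (hij : i ≠ j) (g g' : (C i).G) (h : (C j).G) :
    m i j (g * g') h = m i j g h + m i j g' h := by
  choose w hw using fun i => (hC i).ne
  have hz : w ∈ Dm C := hw
  rw [← hm i j (g * g') h hij w hz, ← hm i j g h hij _ (actm_mem hC (sg C i g') hz),
    ← hm i j g' h hij w hz]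
  unfold cm
  rw [hc i g g' _ (actm_mem hC (sg C j h) hz), hc i g g' w hz, actm_sg_mul hC _ _ _ hz,
    actm_comm hC hij g' h hz]
  ring

include hC hm in
theorem m_anti {i j : Fin 3} (hij : i ≠ j) (g : (C i).G) (h : (C j).G) :
    m i j g h = - m j i h g := by
  choose w hw using fun i => (hC i).ne
  have hz : w ∈ Dm C := hw
  rw [← hm i j g h hij w hz, ← hm j i h g hij.symm w hz]
  unfold cm
  ring

end main

/-- job GAUGE -/
theorem t_gauge : S_gauge := by
  classical
  intro C ψ hC hψ b hb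
  choose c hc using fun (i : Fin 3) (g h : (C i).G) => R1 hb i g h
  choose m hm using fun (i j : Fin 3) (g : (C i).G) (h : (C j).G) => R2 hb i j g h
  have hmadd : ∀ i j, i ≠ j → ∀ g g' h, m i j (g * g') h = m i j g h + m i j g' h :=
    fun i j hij g g' h => m_add hC c hc m hm hij g g' h
  have hmadd2 : ∀ i j, i ≠ j → ∀ g h h', m i j g (h * h') = m i j g h + m i j g h' := by
    intro i j hij g h h'
    rw [m_anti hC m hm hij, m_anti hC m hm hij g h, m_anti hC m hm hij g h',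
      hmadd j i hij.symm h h' g]
    ring
  obtain ⟨u, hu⟩ : ∃ u : Z3 → ℝ, u = fun z => ∑' γ : Gp C, Ps C ψ γ z * bp C b γ z := ⟨_, rfl⟩
  obtain ⟨e, he⟩ : ∃ e : ∀ i, (C i).G → ℂ → ℝ,
      e = fun j h w => - ∑' g, ψ j g w * c j (g * h⁻¹) h := ⟨_, rfl⟩
  have key : ∀ j (h : (C j).G), ∀ z ∈ Dm C, b (sg C j h) z + u (actm C (sg C j h) z) - u z =
        e j h (z j) + ∑ i, if i < j then ∑' g, ψ i g (z i) * m i j g h else 0 := by
    intro j h z hz
    have hs := summable_Ps hψ hz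
    have A1 := (hs (fun γ => bp C b γ z)).hasSum
    have A2 := (hs (fun _ => b (sg C j h) z)).hasSum
    have A3 := (hs (fun γ => c j (γ j * h⁻¹) h)).hasSum
    have A4 := hasSum_sum (s := Finset.univ)
      (fun (i : Fin 3) _ => (hs (fun γ => if i < j then m i j (γ i) h else 0)).hasSum)
    have A5 := (((A1.sub A2).sub A3).add A4).tsum_eq
    rw [sum_Ps hψ hz, marg hψ hz j (fun g => c j (g * h⁻¹) h)] at A5
    have A6 : ∀ i : Fin 3, ∑' γ : Gp C, Ps C ψ γ z * (if i < j then m i j (γ i) h else 0) =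
        if i < j then ∑' g, ψ i g (z i) * m i j g h else 0 := by
      intro i
      split_ifs with hij
      · exact marg hψ hz i (fun g => m i j g h)
      · simp
    rw [Finset.sum_congr rfl (fun i _ => A6 i)] at A5
    have A7 : u (actm C (sg C j h) z) = ∑' γ : Gp C, (Ps C ψ γ z * bp C b γ z -
        Ps C ψ γ z * b (sg C j h) z - Ps C ψ γ z * c j (γ j * h⁻¹) h +
        ∑ i, Ps C ψ γ z * (if i < j then m i j (γ i) h else 0)) := by
      rw [← (Equiv.mulRight (sg C j h)).tsum_eq, hu]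
      refine tsum_congr fun γ => ?_
      rw [Ps_act hψ hz, Equiv.coe_mulRight, ← Finset.mul_sum]
      beta_reduce
      rw [mul_same, mul_inv_cancel_right, bp_mul hC c hc m hm j h γ hz]
      have A8 : (∑ i, if i < j then m i j ((γ * sg C j h) i) h else 0) =
          ∑ i, if i < j then m i j (γ i) h else 0 := by
        refine Finset.sum_congr rfl fun i _ => ?_
        split_ifs with hij
        · rw [mul_ne hij.ne]
        · rfl
      rw [A8]
      ring
    rw [A7, A5, he, hu]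
    ring
  refine ⟨u, e, m, ?_, ?_, ?_, key⟩
  · rw [hu]
    exact sum_smooth hψ _ fun γ => bp_smooth hC hb γ
  · intro j
    refine ⟨fun h => ?_, fun g h => ⟨c j g h, fun w hw => ?_⟩⟩
    · rw [he]
      exact (sum_smooth1 (hψ j) _).neg
    · choose z0 hz0 using fun i => (hC i).ne
      obtain ⟨z, hzj, hz⟩ : ∃ z : Z3, z j = w ∧ z ∈ Dm C := by
        refine ⟨Function.update z0 j w, Function.update_self _ _ _, fun i => ?_⟩
        by_cases hij : i = j
        · subst hij
          rw [Function.update_self]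
          exact hw
        · rw [Function.update_of_ne hij]
          exact hz0 i
      have k1 := key j (g * h) z hz
      have k2 := key j h z hz
      have k3 := key j g _ (actm_mem hC (sg C j h) hz)
      rw [← actm_sg_mul hC _ _ _ hz] at k3
      have e1 : actm C (sg C j h) z j = (C j).act h w := by
        change (C j).act (sg C j h j) (z j) = _
        rw [sg_same, hzj]
      have e2 : ∀ i, i < j → actm C (sg C j h) z i = z i := by
        intro i hij
        change (C i).act (sg C j h i) (z i) = _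
        rw [sg_ne hij.ne]
        exact (hC i).one _ (hz i)
      have e3 : (∑ i, if i < j then ∑' k, ψ i k (z i) * m i j k (g * h) else 0) =
          (∑ i, if i < j then ∑' k, ψ i k (z i) * m i j k h else 0) +
          ∑ i, if i < j then ∑' k, ψ i k (actm C (sg C j h) z i) * m i j k g else 0 := by
        rw [← Finset.sum_add_distrib]
        refine Finset.sum_congr rfl fun i _ => ?_
        split_ifs with hij
        · rw [e2 i hij, ← (summable1 (hψ i) (hz i) _).tsum_add (summable1 (hψ i) (hz i) _)]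
          refine tsum_congr fun k => ?_
          rw [hmadd2 i j hij.ne]
          ring
        · rw [add_zero]
      rw [e1] at k3
      rw [hzj] at k1 k2
      rw [hc j g h z hz] at k1
      linear_combination k2 + k3 - k1 - e3
  · intro i j hij
    exact ⟨hmadd i j hij, hmadd2 i j hij, fun g h => hm i j g h hij⟩

end

end Pool.Agent.H263.F3
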